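import Mathlib
import Pool.Agent.MP_670f9a_nt.H13.Spec

/-!
Vandermonde determinants of points on a hedgehog are small: Taylor expansion of the rows around
the centres of the clusters.
-/

namespace Pool.Agent.MP_670f9a_nt.H75

open Finset Pool.Agent.MP_670f9a_nt.H13

theorem det_le {N : ℕ} (M : Matrix (Fin N) (Fin N) ℂ) (B : ℝ)
    (h : ∀ σ : Equiv.Perm (Fin N), ∏ i, ‖M i (σ i)‖ ≤ B) : ‖M.det‖ ≤ N.factorial * B := by
  rw [← Matrix.det_transpose, Matrix.det_apply']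
  refine (norm_sum_le _ _).trans ?_
  refine (sum_le_card_nsmul _ _ B fun σ _ => ?_).trans (by simp [Fintype.card_perm])
  rw [norm_mul, norm_prod]
  have h1 : ‖((Equiv.Perm.sign σ : ℤ) : ℂ)‖ = 1 := by
    rcases Int.units_eq_one_or (Equiv.Perm.sign σ) with h | h <;> simp [h]
  rw [h1, one_mul]
  exact h σ

theorem sum_range_real (n : ℕ) : ∑ k ∈ range n, (k : ℝ) = ((n : ℝ) ^ 2 - n) / 2 := by
  induction n with
  | zero => simp
  | succ n ih =>
    rw [sum_range_succ, ih]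
    push_cast
    ring

theorem sum_inj {ι : Type} (S : Finset ι) (f : ι → ℕ) (hf : Set.InjOn f S) :
    ((S.card : ℝ) ^ 2 - S.card) / 2 ≤ ∑ i ∈ S, (f i : ℝ) := by
  classical
  have hi : Set.InjOn (fun i => (f i : ℤ)) S := fun a ha b hb h => hf ha hb (Int.natCast_inj.mp h)
  have h1 := Finset.sum_range_le_sum (s := S.image fun i => (f i : ℤ)) (c := 0) (by
    intro x hx
    obtain ⟨i, -, rfl⟩ := mem_image.mp hx
    exact Int.natCast_nonneg _)
  rw [card_image_of_injOn hi, sum_image hi] at h1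
  rw [← sum_range_real]
  simp only [zero_add] at h1
  have h2 := (Int.cast_le (R := ℝ)).mpr h1
  push_cast at h2
  exact h2

theorem det_expand {N : ℕ} (c : Fin N → Fin N → ℂ) (u : Fin N → Fin N → Fin N → ℂ) :
    (Matrix.of fun i k => ∑ r, c i r * u i r k).det =
      ∑ ρ : Fin N → Fin N, (∏ i, c i (ρ i)) * (Matrix.of fun i k => u i (ρ i) k).det := by
  have h1 := (Matrix.detRowAlternating (n := Fin N) (R := ℂ)).toMultilinearMap.map_sum
    (fun i r => c i r • u i r)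
  have h2 : (Matrix.of fun i k => ∑ r, c i r * u i r k) = fun i => ∑ r, c i r • u i r := by
    ext i k
    simp [Finset.sum_apply]
  rw [h2]
  refine h1.trans (sum_congr rfl fun ρ _ => ?_)
  exact (Matrix.detRowAlternating (n := Fin N) (R := ℂ)).toMultilinearMap.map_smul_univ
    (fun i => c i (ρ i)) (fun i => u i (ρ i))

theorem pow_expand {N : ℕ} (z w : ℂ) (k : Fin N) :
    z ^ (k : ℕ) = ∑ r : Fin N, (z - w) ^ (r : ℕ) * (w ^ ((k : ℕ) - r) * ((k : ℕ).choose r : ℂ)) := by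
  rw [Fin.sum_univ_eq_sum_range
    (fun r => (z - w) ^ r * (w ^ ((k : ℕ) - r) * ((k : ℕ).choose r : ℂ))) N]
  conv_lhs => rw [← sub_add_cancel z w, add_pow]
  simp only [mul_assoc]
  refine sum_subset (range_subset_range.mpr k.2) fun r _ hr => ?_
  rw [mem_range, not_lt] at hr
  rw [Nat.choose_eq_zero_of_lt hr]
  simp

theorem fiber_sum {N g : ℕ} (hg : 1 ≤ g) (Ω : Finset ℂ) (hΩ : Ω.card ≤ g) (w : Fin N → ℂ)
    (T : Finset (Fin N)) (hT : ∀ i ∈ T, w i ∈ Ω) (ρ : Fin N → Fin N)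
    (hρ : ∀ i j, w i = w j → ρ i = ρ j → i = j) :
    ((T.card : ℝ) ^ 2 / g - T.card) / 2 ≤ ∑ i, ((ρ i : ℕ) : ℝ) := by
  classical
  have h0 : ∑ i ∈ T, ((ρ i : ℕ) : ℝ) ≤ ∑ i, ((ρ i : ℕ) : ℝ) :=
    sum_le_sum_of_subset_of_nonneg (subset_univ _) fun _ _ _ => Nat.cast_nonneg _
  refine le_trans ?_ h0
  rw [← sum_fiberwise_of_maps_to hT]
  have h1 : ∀ ω ∈ Ω, (((T.filter fun i => w i = ω).card : ℝ) ^ 2 -
      (T.filter fun i => w i = ω).card) / 2 ≤ ∑ i ∈ T.filter fun i => w i = ω, ((ρ i : ℕ) : ℝ) := by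
    intro ω _
    refine sum_inj _ (fun i => (ρ i : ℕ)) fun a ha b hb h => ?_
    have ha' := (mem_filter.mp (mem_coe.mp ha)).2
    have hb' := (mem_filter.mp (mem_coe.mp hb)).2
    exact hρ a b (ha'.trans hb'.symm) (Fin.ext h)
  refine le_trans ?_ (sum_le_sum h1)
  have h2 : (T.card : ℝ) = ∑ ω ∈ Ω, ((T.filter fun i => w i = ω).card : ℝ) := by
    rw [card_eq_sum_card_fiberwise (f := w) (t := Ω) fun i hi => hT i hi]
    push_cast
    rfl
  have h3 := sq_sum_le_card_mul_sum_sq (s := Ω)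
    (f := fun ω => ((T.filter fun i => w i = ω).card : ℝ))
  rw [← h2] at h3
  rw [← sum_div, sum_sub_distrib, ← h2]
  have hg' : (0 : ℝ) < g := by exact_mod_cast hg
  have h4 : (Ω.card : ℝ) ≤ g := by exact_mod_cast hΩ
  have h5 : 0 ≤ ∑ ω ∈ Ω, ((T.filter fun i => w i = ω).card : ℝ) ^ 2 :=
    sum_nonneg fun _ _ => sq_nonneg _
  have h6 : (T.card : ℝ) ^ 2 / g ≤ ∑ ω ∈ Ω, ((T.filter fun i => w i = ω).card : ℝ) ^ 2 := by
    rw [div_le_iff₀ hg']
    nlinarith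
  linarith

theorem cluster {N g : ℕ} (hg : 1 ≤ g) (Ω : Finset ℂ) (hΩ : Ω.card ≤ g) (z w : Fin N → ℂ)
    (T : Finset (Fin N)) (hT : ∀ i ∈ T, w i ∈ Ω) (δ : ℝ) (hδ : 0 ≤ δ) (hw : ∀ i, ‖w i‖ ≤ 1)
    (hz : ∀ i, ‖z i - w i‖ ≤ δ) :
    ‖(Matrix.vandermonde z).det‖ ≤ N.factorial *
      Real.exp (-(((T.card : ℝ) ^ 2 / g - T.card) / 2) + N * (δ * N * Real.exp 1)) := by
  classical
  set P : ℝ := ((T.card : ℝ) ^ 2 / g - T.card) / 2 with hP
  set x : ℝ := δ * N * Real.exp 1 with hx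
  have hx0 : 0 ≤ x := by positivity
  have h1 : Matrix.vandermonde z = Matrix.of fun i k : Fin N => ∑ r : Fin N,
      (z i - w i) ^ (r : ℕ) * (w i ^ ((k : ℕ) - r) * ((k : ℕ).choose r : ℂ)) := by
    ext i k
    rw [Matrix.vandermonde_apply, Matrix.of_apply]
    exact pow_expand _ _ _
  rw [h1, det_expand (fun i r => (z i - w i) ^ (r : ℕ))
    (fun i r k => w i ^ ((k : ℕ) - r) * ((k : ℕ).choose r : ℂ))]
  refine (norm_sum_le _ _).trans ?_
  have h2 : ∀ ρ : Fin N → Fin N, ‖(∏ i, (z i - w i) ^ (ρ i : ℕ)) *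
      (Matrix.of fun i k : Fin N => w i ^ ((k : ℕ) - ρ i) * ((k : ℕ).choose (ρ i) : ℂ)).det‖ ≤
      N.factorial * Real.exp (-P) * ∏ i, (x ^ (ρ i : ℕ) / (ρ i : ℕ).factorial) := by
    intro ρ
    by_cases hρ : ∀ i j, w i = w j → ρ i = ρ j → i = j
    · have h3 := fiber_sum hg Ω hΩ w T hT ρ hρ
      have h4 := det_le (Matrix.of fun i k : Fin N =>
        w i ^ ((k : ℕ) - ρ i) * ((k : ℕ).choose (ρ i) : ℂ))
        (∏ i, ((N : ℝ) ^ (ρ i : ℕ) / (ρ i : ℕ).factorial)) fun σ => by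
          refine prod_le_prod (fun _ _ => norm_nonneg _) fun i _ => ?_
          rw [Matrix.of_apply, norm_mul, norm_pow, Complex.norm_natCast]
          have a1 : ‖w i‖ ^ ((σ i : ℕ) - ρ i) ≤ 1 := pow_le_one₀ (norm_nonneg _) (hw i)
          have a2 : (((σ i : ℕ).choose (ρ i) : ℕ) : ℝ) ≤ (N.choose (ρ i) : ℕ) := by
            exact_mod_cast Nat.choose_le_choose _ (σ i).2.le
          have a3 := Nat.choose_le_pow_div (α := ℝ) (ρ i) N
          calc _ ≤ 1 * (((σ i : ℕ).choose (ρ i) : ℕ) : ℝ) := by gcongr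
            _ ≤ _ := by linarith
      have h5 : ‖∏ i, (z i - w i) ^ (ρ i : ℕ)‖ ≤ ∏ i, δ ^ (ρ i : ℕ) := by
        rw [norm_prod]
        refine prod_le_prod (fun _ _ => norm_nonneg _) fun i _ => ?_
        rw [norm_pow]
        gcongr
        exact hz i
      have h6 : ∏ i, (x ^ (ρ i : ℕ) / (ρ i : ℕ).factorial) =
          Real.exp (∑ i, ((ρ i : ℕ) : ℝ)) * ((∏ i, δ ^ (ρ i : ℕ)) *
            ∏ i, ((N : ℝ) ^ (ρ i : ℕ) / (ρ i : ℕ).factorial)) := by
        rw [Real.exp_sum, ← prod_mul_distrib, ← prod_mul_distrib]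
        refine prod_congr rfl fun i _ => ?_
        rw [hx, mul_pow, mul_pow, ← Real.exp_nat_mul, mul_one]
        ring
      have h7 : 1 ≤ Real.exp (-P) * Real.exp (∑ i, ((ρ i : ℕ) : ℝ)) := by
        rw [← Real.exp_add]
        exact Real.one_le_exp (by linarith)
      have h8 : 0 ≤ ∏ i, δ ^ (ρ i : ℕ) := prod_nonneg fun _ _ => by positivity
      have h9 : 0 ≤ ∏ i, ((N : ℝ) ^ (ρ i : ℕ) / (ρ i : ℕ).factorial) :=
        prod_nonneg fun _ _ => by positivity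
      rw [norm_mul, h6]
      calc _ ≤ (∏ i, δ ^ (ρ i : ℕ)) * (N.factorial *
            ∏ i, ((N : ℝ) ^ (ρ i : ℕ) / (ρ i : ℕ).factorial)) := by gcongr
        _ = 1 * (N.factorial * ((∏ i, δ ^ (ρ i : ℕ)) *
            ∏ i, ((N : ℝ) ^ (ρ i : ℕ) / (ρ i : ℕ).factorial))) := by ring
        _ ≤ (Real.exp (-P) * Real.exp (∑ i, ((ρ i : ℕ) : ℝ))) * (N.factorial *
            ((∏ i, δ ^ (ρ i : ℕ)) * ∏ i, ((N : ℝ) ^ (ρ i : ℕ) / (ρ i : ℕ).factorial))) := by
          gcongr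
        _ = _ := by ring
    · push Not at hρ
      obtain ⟨i, j, e1, e2, e3⟩ := hρ
      rw [Matrix.det_zero_of_row_eq e3 (by
        ext k
        simp [e1, e2]), mul_zero, norm_zero]
      exact mul_nonneg (by positivity) (prod_nonneg fun _ _ => by positivity)
  refine (sum_le_sum fun ρ _ => h2 ρ).trans ?_
  rw [← mul_sum, ← Fintype.sum_pow (fun r : Fin N => x ^ (r : ℕ) / (r : ℕ).factorial),
    Real.exp_add, mul_assoc, Real.exp_nat_mul]
  have h10 : ∑ r : Fin N, x ^ (r : ℕ) / (r : ℕ).factorial ≤ Real.exp x := by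
    rw [Fin.sum_univ_eq_sum_range (fun r => x ^ r / r.factorial) N]
    exact Real.sum_le_exp_of_nonneg hx0 N
  have h11 : 0 ≤ ∑ r : Fin N, x ^ (r : ℕ) / (r : ℕ).factorial :=
    sum_nonneg fun _ _ => by positivity
  gcongr

theorem deep {N : ℕ} (z : Fin N → ℂ) (T : Finset (Fin N)) (ε : ℝ) (h0 : 0 ≤ ε)
    (hz : ∀ i, ‖z i‖ ≤ 1) (hT : ∀ i ∈ T, ‖z i‖ ≤ 1 - ε) :
    ‖(Matrix.vandermonde z).det‖ ≤ N.factorial *
      Real.exp (-(ε * (((T.card : ℝ) ^ 2 - T.card) / 2))) := by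
  classical
  refine det_le _ _ fun σ => ?_
  have h1 := sum_inj T (fun i => (σ i : ℕ)) fun a _ b _ h => σ.injective (Fin.ext h)
  have h2 : ∏ i, ‖Matrix.vandermonde z i (σ i)‖ ≤
      ∏ i, Real.exp (if i ∈ T then -(ε * (σ i : ℕ)) else 0) := by
    refine prod_le_prod (fun _ _ => norm_nonneg _) fun i _ => ?_
    rw [Matrix.vandermonde_apply, norm_pow]
    split_ifs with hi
    · have a1 : ‖z i‖ ≤ Real.exp (-ε) := (hT i hi).trans (by linarith [Real.add_one_le_exp (-ε)])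
      calc _ ≤ Real.exp (-ε) ^ (σ i : ℕ) := by gcongr
        _ = _ := by
          rw [← Real.exp_nat_mul]
          congr 1
          ring
    · rw [Real.exp_zero]
      exact pow_le_one₀ (norm_nonneg _) (hz i)
  refine h2.trans ?_
  rw [← Real.exp_sum, sum_ite_mem, univ_inter, sum_neg_distrib, ← mul_sum]
  gcongr

theorem fact_le (N : ℕ) (hN : 1 ≤ N) : (N.factorial : ℝ) ≤ Real.exp (N * Real.log N) := by
  have h : (0 : ℝ) < N := by exact_mod_cast hN
  rw [Real.exp_nat_mul, Real.exp_log h]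
  exact_mod_cast Nat.factorial_le_pow N

theorem svan : SVan := by
  classical
  intro g N Ω z hg hΩ h1 hN hz
  have hg' : (1 : ℝ) ≤ g := by exact_mod_cast hg
  have hg0 : (0 : ℝ) < g := by linarith
  have hN' : 64 * (g : ℝ) ≤ N := by exact_mod_cast hN
  have hf := fact_le N (by omega)
  set D : Finset (Fin N) := univ.filter fun i => ‖z i‖ ≤ 1 - 1 / (256 * (g : ℝ)) with hD
  have hc : (D.card : ℝ) + (Dᶜ.card : ℝ) = N := by
    have := card_add_card_compl D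
    rw [Fintype.card_fin] at this
    exact_mod_cast this
  have key : ∀ y : ℝ, y ≤ N - (N : ℝ) ^ 2 / (4096 * g) →
      ‖(Matrix.vandermonde z).det‖ ≤ N.factorial * Real.exp y →
      ‖(Matrix.vandermonde z).det‖ ≤ Real.exp (N * Real.log N + N - (N : ℝ) ^ 2 / (4096 * g)) := by
    intro y hy h
    rw [add_sub_assoc, Real.exp_add]
    refine h.trans ?_
    gcongr
  by_cases hd : (N : ℝ) / 2 ≤ D.card
  · refine key _ ?_ (deep z D (1 / (256 * (g : ℝ))) (by positivity) (fun i => (hz i).1)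
      fun i hi => (mem_filter.mp hi).2)
    have a1 : (N : ℝ) ^ 2 / 16 ≤ ((D.card : ℝ) ^ 2 - D.card) / 2 := by nlinarith
    have a2 : (N : ℝ) ^ 2 / (4096 * g) = 1 / (256 * (g : ℝ)) * ((N : ℝ) ^ 2 / 16) := by
      field_simp
      ring
    have a3 : 1 / (256 * (g : ℝ)) * ((N : ℝ) ^ 2 / 16) ≤
        1 / (256 * (g : ℝ)) * (((D.card : ℝ) ^ 2 - D.card) / 2) := by gcongr
    linarith
  · have hw : ∀ i, ∃ w : ℂ, ‖w‖ ≤ 1 ∧ ‖z i - w‖ ≤ 2 * (1 / (256 * (g : ℝ))) ∧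
        (i ∈ Dᶜ → w ∈ Ω) := by
      intro i
      rcases (hz i).2 with h | ⟨ω, h2, h3⟩
      · refine ⟨z i, (hz i).1, by rw [sub_self, norm_zero]; positivity, fun hi => ?_⟩
        exact absurd (show i ∈ D from mem_filter.mpr ⟨mem_univ i, h⟩) (mem_compl.mp hi)
      · exact ⟨ω, (h1 ω h2).le, h3, fun _ => h2⟩
    choose w w1 w2 w3 using hw
    refine key _ ?_ (cluster hg Ω hΩ z w Dᶜ w3 _ (by positivity) w1 w2)
    set n : ℝ := (Dᶜ.card : ℝ) with hn
    have a0 : (0 : ℝ) ≤ D.card := Nat.cast_nonneg _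
    have a1 : (N : ℝ) / 2 ≤ n := by linarith
    have a2 : n ≤ N := by linarith
    have a3 : Real.exp 1 ≤ 3 := by linarith [Real.exp_one_lt_d9]
    set q : ℝ := (N : ℝ) ^ 2 / g with hq
    have a4 : (N : ℝ) ^ 2 / (4096 * g) = q / 4096 := by
      rw [hq]
      field_simp
    have a5 : (N : ℝ) * (2 * (1 / (256 * (g : ℝ))) * N * Real.exp 1) = q / 128 * Real.exp 1 := by
      rw [hq]
      field_simp
      ring
    have a6 : q / 4 ≤ n ^ 2 / g := by
      rw [hq, div_div, div_le_div_iff₀ (by positivity) hg0]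
      have : (N : ℝ) ^ 2 ≤ n ^ 2 * 4 := by nlinarith
      nlinarith
    have a7 : 0 ≤ q := by positivity
    have a8 : q / 128 * Real.exp 1 ≤ q / 128 * 3 := by gcongr
    rw [a4, a5]
    linarith

end Pool.Agent.MP_670f9a_nt.H75
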